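import Mathlib

/-!
# No syndetic set is a weak interpolation set of order 2 for uniquely ergodic systems

The proof: along a syndetic set `S` one can, for every sufficiently long word `v`, find a
colouring `f` of `S` such that no translate of `v` agrees with `f` along `S` (a greedy choice
controlled by a potential function).  A colouring which does this for each word `v` on
arbitrarily long blocks cannot be interpolated by a uniquely ergodic system, because in such a
system all orbit closures share a common point, whose itinerary would have to be seen along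
every long enough block.
-/

set_option linter.unusedSectionVars false
set_option linter.unusedVariables false

open MeasureTheory Topology Filter Set

namespace Pool.Agent.Results.MP_0c3956_an.NoSyndetic

universe u

/-- A topological dynamical system: a compact metric space with a continuous self-map. -/
structure TDS where
  /-- the phase space -/
  X : Type u
  /-- its metric -/
  [metric : MetricSpace X]
  [compact : CompactSpace X]
  /-- the map -/
  T : X → X
  cont : Continuous T

attribute [instance] TDS.metric TDS.compact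

/-- A point is transitive if its forward orbit `{T^n x : n = 0, 1, 2, ...}` is dense. -/
def TDS.IsTransitivePoint (D : TDS.{u}) (x : D.X) : Prop :=
  Dense {y : D.X | ∃ n : ℕ, y = D.T^[n] x}

/-- Exactly one Borel probability measure on the phase space is invariant under the map. -/
def TDS.IsUniquelyErgodic (D : TDS.{u}) : Prop :=
  letI : MeasurableSpace D.X := borel D.X
  ∃! μ : Measure D.X, IsProbabilityMeasure μ ∧ μ.map D.T = μ

/-- `S` is a weak interpolation set of order `k` for the class `C` of systems: every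
`f : S → {0, ..., k-1}` is of the form `n ↦ F (T^n x)` along `S` for some system `(X, T)` in `C`,
some transitive point `x` and some continuous `F : X → ℂ`. -/
def IsWeakInterpolationSet (C : Set TDS.{u}) (k : ℕ) (S : Set ℕ+) : Prop :=
  ∀ f : S → Fin k, ∃ D ∈ C, ∃ x : D.X, D.IsTransitivePoint x ∧
    ∃ F : D.X → ℂ, Continuous F ∧ ∀ n : S, F (D.T^[((n : ℕ+) : ℕ)] x) = ((f n : ℕ) : ℂ)

/-- `S` is syndetic: for some `L` it meets every interval `[m, m + L)` of `L` consecutive
positive integers. -/
def IsSyndetic (S : Set ℕ+) : Prop :=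
  ∃ L : ℕ, ∀ m : ℕ+, ∃ n ∈ S, m ≤ n ∧ (n : ℕ) < m + L

/-! ### A point common to all orbit closures of a uniquely ergodic system -/

section dyn


variable {X : Type u} [MetricSpace X] [CompactSpace X]

/-- empirical measures -/
noncomputable def emp [MeasurableSpace X] (T : X → X) (x : X) (n : ℕ) : Measure X :=
  ((n + 1 : ℕ) : ENNReal)⁻¹ • ∑ k ∈ Finset.range (n + 1), Measure.dirac (T^[k] x)

lemma emp_prob [MeasurableSpace X] (T : X → X) (x : X) (n : ℕ) :
    IsProbabilityMeasure (emp T x n) := by
  constructor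
  simp only [emp, Measure.smul_apply, Measure.coe_finsetSum, Finset.sum_apply,
    measure_univ, Finset.sum_const, Finset.card_range, smul_eq_mul, nsmul_eq_mul, mul_one]
  exact ENNReal.inv_mul_cancel (by simp) (by simp)

lemma integral_emp [MeasurableSpace X] [BorelSpace X] (T : X → X) (x : X) (n : ℕ)
    (g : X → ℝ) (hg : Continuous g) :
    ∫ y, g y ∂(emp T x n) = ((n + 1 : ℕ) : ℝ)⁻¹ * ∑ k ∈ Finset.range (n + 1), g (T^[k] x) := by
  rw [emp, integral_smul_measure, integral_finsetSum_measure]
  · rw [ENNReal.toReal_inv, ENNReal.toReal_natCast, smul_eq_mul]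
    simp only [integral_dirac]
  · intro i _
    exact integrable_dirac (by simp [enorm_lt_top])

lemma exists_invariant [MeasurableSpace X] [BorelSpace X] {T : X → X} (hT : Continuous T) (x : X) :
    ∃ ν : Measure X, IsProbabilityMeasure ν ∧ ν.map T = ν ∧
      ν (closure (range fun n : ℕ => T^[n] x))ᶜ = 0 := by
  let P : ℕ → ProbabilityMeasure X := fun n => ⟨emp T x n, emp_prob T x n⟩
  obtain ⟨ν, -, hν⟩ := isCompact_univ.ultrafilter_le_nhds ((hyperfilter ℕ).map P) (by simp)
  have hν' : Tendsto P (hyperfilter ℕ) (𝓝 ν) := hν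
  have hatTop : (hyperfilter ℕ : Filter ℕ) ≤ atTop := by
    rw [← Nat.cofinite_eq_atTop]
    exact hyperfilter_le_cofinite
  rw [ProbabilityMeasure.tendsto_iff_forall_integral_tendsto] at hν'
  have hint : ∀ (g : BoundedContinuousFunction X ℝ) (n : ℕ), ∫ y, g y ∂(P n : Measure X) =
      ((n + 1 : ℕ) : ℝ)⁻¹ * ∑ k ∈ Finset.range (n + 1), g (T^[k] x) := by
    intro g n
    exact integral_emp T x n g g.continuous
  refine ⟨ν, inferInstance, ?_, ?_⟩
  · have : IsProbabilityMeasure ((ν : Measure X).map T) :=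
      Measure.isProbabilityMeasure_map hT.aemeasurable
    apply ext_of_forall_integral_eq_of_IsFiniteMeasure
    intro g
    rw [integral_map hT.aemeasurable g.continuous.aestronglyMeasurable]
    let g' : BoundedContinuousFunction X ℝ := g.compContinuous ⟨T, hT⟩
    have h1 := hν' g
    have h2 := hν' g'
    have h3 : Tendsto (fun n => ∫ y, g' y ∂(P n : Measure X) - ∫ y, g y ∂(P n : Measure X))
        (hyperfilter ℕ) (𝓝 0) := by
      refine Tendsto.mono_left ?_ hatTop
      have hb : ∀ n, ‖∫ y, g' y ∂(P n : Measure X) - ∫ y, g y ∂(P n : Measure X)‖ ≤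
          (2 * ‖g‖) * ((n + 1 : ℕ) : ℝ)⁻¹ := by
        intro n
        rw [hint, hint, ← mul_sub, ← Finset.sum_sub_distrib]
        have : ∑ k ∈ Finset.range (n + 1), (g' (T^[k] x) - g (T^[k] x)) =
            g (T^[n+1] x) - g (T^[0] x) := by
          rw [← Finset.sum_range_sub (fun k => g (T^[k] x))]
          apply Finset.sum_congr rfl
          intro k _
          simp [g', Function.iterate_succ_apply']
        rw [this, norm_mul, mul_comm]
        gcongr
        · calc ‖g (T^[n+1] x) - g (T^[0] x)‖ ≤ ‖g (T^[n+1] x)‖ + ‖g (T^[0] x)‖ := norm_sub_le _ _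
            _ ≤ ‖g‖ + ‖g‖ := add_le_add (g.norm_coe_le_norm _) (g.norm_coe_le_norm _)
            _ = 2 * ‖g‖ := by ring
        · rw [Real.norm_eq_abs, abs_of_pos (by positivity)]
      apply squeeze_zero_norm hb
      have : Tendsto (fun n : ℕ => (2 * ‖g‖) * ((n + 1 : ℕ) : ℝ)⁻¹) atTop (𝓝 ((2 * ‖g‖) * 0)) := by
        apply Tendsto.const_mul
        have := tendsto_one_div_add_atTop_nhds_zero_nat (𝕜 := ℝ)
        simpa using this
      simpa using this
    have h4 := h2.sub h1
    have h5 := tendsto_nhds_unique h3 h4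
    have h6 : ∫ y, g' y ∂(ν : Measure X) = ∫ y, g y ∂(ν : Measure X) := by linarith
    exact h6
  · set E := closure (range fun n : ℕ => T^[n] x) with hE
    have hEne : E.Nonempty := ⟨x, subset_closure ⟨0, rfl⟩⟩
    have hEcl : IsClosed E := isClosed_closure
    let g : BoundedContinuousFunction X ℝ :=
      BoundedContinuousFunction.mkOfCompact ⟨fun y => Metric.infDist y E,
        Metric.continuous_infDist_pt E⟩
    have h1 := hν' g
    have h2 : ∀ n, ∫ y, g y ∂(P n : Measure X) = 0 := by
      intro n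
      rw [hint]
      have : ∀ k, g (T^[k] x) = 0 := by
        intro k
        exact Metric.infDist_zero_of_mem (subset_closure ⟨k, rfl⟩)
      simp [this]
    simp only [h2] at h1
    have h3 : ∫ y, g y ∂(ν : Measure X) = 0 := (tendsto_nhds_unique tendsto_const_nhds h1).symm
    have hgn : 0 ≤ᵐ[(ν : Measure X)] (g : X → ℝ) :=
      Filter.Eventually.of_forall fun y => Metric.infDist_nonneg
    rw [integral_eq_zero_iff_of_nonneg_ae hgn (g.integrable _)] at h3
    have h4 : ∀ᵐ y ∂(ν : Measure X), y ∈ E := by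
      filter_upwards [h3] with y hy
      exact (hEcl.mem_iff_infDist_zero hEne).2 hy
    exact h4

lemma exists_common_point [MeasurableSpace X] [BorelSpace X] {T : X → X} (hT : Continuous T)
    (h : ∃! μ : Measure X, IsProbabilityMeasure μ ∧ μ.map T = μ) :
    ∃ z : X, ∀ x : X, z ∈ closure (range fun n : ℕ => T^[n] x) := by
  obtain ⟨μ, ⟨hμ, hinv⟩, huniq⟩ := h
  obtain ⟨z, -, hz⟩ := exists_mem_forall_mem_nhdsWithin_pos_measure (μ := μ) (s := Set.univ)
    (by simp)
  refine ⟨z, fun x => ?_⟩
  by_contra hx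
  obtain ⟨ν, hν1, hν2, hν3⟩ := exists_invariant hT x
  have : ν = μ := huniq ν ⟨hν1, hν2⟩
  subst this
  have := hz _ (mem_nhdsWithin_of_mem_nhds (isClosed_closure.isOpen_compl.mem_nhds hx))
  exact absurd hν3 this.ne'

end dyn

/-! ### Avoiding long words along a syndetic set -/

section comb

open Classical in
/-- number of elements of `S` in `[a,b)` -/
noncomputable def cnt (S : Set ℕ) (a b : ℕ) : ℕ := ((Finset.Ico a b).filter (· ∈ S)).card

/-- `f` agrees with the translate of `v` by `m` along `S ∩ [m, n)` -/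
def alive (S : Set ℕ) (v : ℕ → Bool) (f : ℕ → Bool) (m n : ℕ) : Prop :=
  ∀ i ∈ S, m ≤ i → i < n → f i = v (i - m)

/-- weights -/
noncomputable def wt (S : Set ℕ) (N : ℕ) (d : ℝ) (m n : ℕ) : ℝ :=
  (1 / 2 : ℝ) ^ (cnt S n (m + N)) * d ^ (m + N - n)

open Classical in
/-- the potential -/
noncomputable def pot (S : Set ℕ) (v : ℕ → Bool) (N : ℕ) (d : ℝ) (f : ℕ → Bool) (n : ℕ) : ℝ :=
  ∑ m ∈ (Finset.range n).filter (fun m => n ≤ m + N), if alive S v f m n then wt S N d m n else 0

lemma wt_nonneg (S : Set ℕ) (N : ℕ) {d : ℝ} (hd : 0 ≤ d) (m n : ℕ) : 0 ≤ wt S N d m n := by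
  unfold wt; positivity

lemma cnt_add (S : Set ℕ) {a b c : ℕ} (hab : a ≤ b) (hbc : b ≤ c) :
    cnt S a c = cnt S a b + cnt S b c := by
  classical
  unfold cnt
  rw [← Finset.Ico_union_Ico_eq_Ico hab hbc, Finset.filter_union, Finset.card_union_of_disjoint]
  exact Finset.disjoint_filter_filter (Finset.Ico_disjoint_Ico_consecutive a b c)

lemma cnt_succ (S : Set ℕ) (a : ℕ) [Decidable (a ∈ S)] :
    cnt S a (a + 1) = if a ∈ S then 1 else 0 := by
  classical
  unfold cnt
  rw [Nat.Ico_succ_singleton, Finset.filter_singleton]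
  split_ifs <;> simp

lemma wt_succ (S : Set ℕ) (N : ℕ) {d : ℝ} (hd : 0 < d) {m n : ℕ} (h : n + 1 ≤ m + N)
    [Decidable (n ∈ S)] :
    wt S N d m (n + 1) = (if n ∈ S then 2 else 1) * wt S N d m n / d := by
  unfold wt
  rw [cnt_add S (Nat.le_succ n) h, cnt_succ]
  have : m + N - n = m + N - (n + 1) + 1 := by omega
  rw [this]
  split_ifs
  · field_simp
    ring
  · field_simp
    ring

lemma alive_update_succ (S : Set ℕ) (v f : ℕ → Bool) (b : Bool) {m n : ℕ} (hmn : m ≤ n) :
    alive S v (Function.update f n b) m (n + 1) ↔ alive S v f m n ∧ (n ∈ S → b = v (n - m)) := by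
  constructor
  · intro h
    refine ⟨fun i hi h1 h2 => ?_, fun hn => ?_⟩
    · have := h i hi h1 (by omega)
      rwa [Function.update_of_ne (by omega)] at this
    · have := h n hn hmn (by omega)
      rwa [Function.update_self] at this
  · rintro ⟨h1, h2⟩ i hi h3 h4
    by_cases hin : i = n
    · subst hin
      rw [Function.update_self]
      exact h2 hi
    · rw [Function.update_of_ne hin]
      exact h1 i hi h3 (by omega)

lemma pot_congr (S : Set ℕ) (v : ℕ → Bool) (N : ℕ) (d : ℝ) {f g : ℕ → Bool} {n : ℕ}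
    (h : ∀ i < n, f i = g i) : pot S v N d f n = pot S v N d g n := by
  classical
  unfold pot
  apply Finset.sum_congr rfl
  intro m _
  have : alive S v f m n ↔ alive S v g m n := by
    constructor
    · intro h' i hi h1 h2
      rw [← h i h2]; exact h' i hi h1 h2
    · intro h' i hi h1 h2
      rw [h i h2]; exact h' i hi h1 h2
  simp only [this]

lemma pot_step (S : Set ℕ) (v : ℕ → Bool) (N : ℕ) {d : ℝ} (hd : 0 < d) (f : ℕ → Bool) (n : ℕ) :
    ∃ b : Bool, pot S v N d (Function.update f n b) (n + 1) ≤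
      pot S v N d f n / d + wt S N d n (n + 1) := by
  classical
  -- bound for a given `b`
  have key : ∀ b : Bool, pot S v N d (Function.update f n b) (n + 1) ≤
      (∑ m ∈ (Finset.range n).filter (fun m => n ≤ m + N),
        if alive S v f m n ∧ (n ∈ S → b = v (n - m)) then
          (if n ∈ S then 2 else 1) * wt S N d m n / d else 0) + wt S N d n (n + 1) := by
    intro b
    unfold pot
    rw [Finset.range_add_one, Finset.filter_insert]
    have h1 : ∑ m ∈ (Finset.range n).filter (fun m => n + 1 ≤ m + N),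
        (if alive S v (Function.update f n b) m (n + 1) then wt S N d m (n + 1) else 0) ≤
        ∑ m ∈ (Finset.range n).filter (fun m => n ≤ m + N),
        if alive S v f m n ∧ (n ∈ S → b = v (n - m)) then
          (if n ∈ S then 2 else 1) * wt S N d m n / d else 0 := by
      calc _ = ∑ m ∈ (Finset.range n).filter (fun m => n + 1 ≤ m + N),
            (if alive S v f m n ∧ (n ∈ S → b = v (n - m)) then
              (if n ∈ S then 2 else 1) * wt S N d m n / d else 0) := by
            apply Finset.sum_congr rfl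
            intro m hm
            rw [Finset.mem_filter, Finset.mem_range] at hm
            rw [wt_succ S N hd hm.2]
            simp only [alive_update_succ S v f b hm.1.le]
        _ ≤ _ := by
            apply Finset.sum_le_sum_of_subset_of_nonneg
            · intro m hm
              rw [Finset.mem_filter] at hm ⊢
              exact ⟨hm.1, by omega⟩
            · intro m _ _
              have := wt_nonneg S N hd.le m n
              split_ifs <;> positivity
    have hw := wt_nonneg S N hd.le n (n + 1)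
    by_cases h2 : n + 1 ≤ n + N
    · rw [if_pos h2, Finset.sum_insert (by simp), add_comm]
      apply add_le_add h1
      by_cases h3 : alive S v (Function.update f n b) n (n + 1)
      · rw [if_pos h3]
      · rw [if_neg h3]; exact hw
    · rw [if_neg h2]
      exact h1.trans (by linarith)
  have hw := wt_nonneg S N hd.le
  by_cases hn : n ∈ S
  · -- choose the better value
    by_contra hcon
    push Not at hcon
    have h1 := (hcon true).trans_le (key true)
    have h2 := (hcon false).trans_le (key false)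
    have h3 : (∑ m ∈ (Finset.range n).filter (fun m => n ≤ m + N),
        if alive S v f m n ∧ (n ∈ S → true = v (n - m)) then
          (if n ∈ S then 2 else 1) * wt S N d m n / d else 0) +
        (∑ m ∈ (Finset.range n).filter (fun m => n ≤ m + N),
        if alive S v f m n ∧ (n ∈ S → false = v (n - m)) then
          (if n ∈ S then 2 else 1) * wt S N d m n / d else 0) = 2 * (pot S v N d f n / d) := by
      unfold pot
      rw [← Finset.sum_add_distrib, Finset.sum_div, Finset.mul_sum]
      apply Finset.sum_congr rfl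
      intro m _
      simp only [hn, if_true, true_imp_iff]
      by_cases ha : alive S v f m n
      · cases hv : v (n - m) <;> simp [ha] <;> ring
      · simp [ha]
    linarith
  · refine ⟨true, (key true).trans ?_⟩
    gcongr
    unfold pot
    rw [Finset.sum_div]
    apply Finset.sum_le_sum
    intro m _
    simp only [hn, false_imp_iff, and_true, if_false, one_mul]
    split_ifs <;> simp

lemma exists_pot_le (S : Set ℕ) (v : ℕ → Bool) (N : ℕ) {d : ℝ} (hd : 0 < d)
    (hw : ∀ n, wt S N d n (n + 1) ≤ (1 - 1 / d) / 2) (n : ℕ) :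
    ∃ f : ℕ → Bool, ∀ k ≤ n, pot S v N d f k ≤ 1 / 2 := by
  induction n with
  | zero =>
    refine ⟨fun _ => true, fun k hk => ?_⟩
    obtain rfl : k = 0 := by omega
    simp [pot]
  | succ n ih =>
    obtain ⟨f, hf⟩ := ih
    obtain ⟨b, hb⟩ := pot_step S v N hd f n
    refine ⟨Function.update f n b, fun k hk => ?_⟩
    rcases Nat.lt_or_ge k (n + 1) with h | h
    · rw [pot_congr S v N d (g := f)]
      · exact hf k (by omega)
      · intro i hi
        exact Function.update_of_ne (by omega) _ _
    · obtain rfl : k = n + 1 := by omega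
      refine hb.trans ?_
      have h1 : pot S v N d f n / d ≤ (1 / 2) / d := by
        gcongr
        exact hf n le_rfl
      have h2 := hw n
      have h3 : (1 / 2) / d = (1 / d) / 2 := by ring
      linarith

lemma not_alive_of_pot (S : Set ℕ) (v : ℕ → Bool) {N : ℕ} (hN : 1 ≤ N) {d : ℝ} (hd : 0 < d)
    {f : ℕ → Bool} {m : ℕ} (h : pot S v N d f (m + N) ≤ 1 / 2) : ¬ alive S v f m (m + N) := by
  classical
  intro ha
  have h1 : (1 : ℝ) ≤ pot S v N d f (m + N) := by
    unfold pot
    have : (if alive S v f m (m + N) then wt S N d m (m + N) else 0) = 1 := by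
      rw [if_pos ha]
      simp [wt, cnt]
    rw [← this]
    apply Finset.single_le_sum (f := fun m' => if alive S v f m' (m + N) then
      wt S N d m' (m + N) else 0)
    · intro i _
      have := wt_nonneg S N hd.le i (m + N)
      split_ifs <;> simp [this]
    · rw [Finset.mem_filter, Finset.mem_range]
      omega
  linarith

lemma cnt_ge (S : Set ℕ) {L : ℕ} (hL : ∀ m, 1 ≤ m → ∃ n ∈ S, m ≤ n ∧ n < m + L) {a : ℕ}
    (ha : 1 ≤ a) (j : ℕ) : j ≤ cnt S a (a + L * j) := by
  classical
  induction j with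
  | zero => simp
  | succ j ih =>
    rw [cnt_add S (b := a + L * j) (by omega) (by rw [mul_add]; omega)]
    have : 1 ≤ cnt S (a + L * j) (a + L * (j + 1)) := by
      obtain ⟨n, hn, h1, h2⟩ := hL (a + L * j) (by omega)
      unfold cnt
      apply Finset.card_pos.2
      refine ⟨n, ?_⟩
      rw [Finset.mem_filter, Finset.mem_Ico]
      refine ⟨⟨h1, ?_⟩, hn⟩
      rw [mul_add]; omega
    omega

/-- Main combinatorial lemma: along a syndetic set one can avoid any long enough word. -/
lemma exists_avoid (S : Set ℕ) {L : ℕ} (hL : ∀ m, 1 ≤ m → ∃ n ∈ S, m ≤ n ∧ n < m + L) :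
    ∃ N : ℕ, ∀ (v : ℕ → Bool) (n : ℕ), ∃ f : ℕ → Bool, ∀ m, m + N ≤ n →
      ∃ i ∈ S, m ≤ i ∧ i < m + N ∧ f i ≠ v (i - m) := by
  have hL1 : 1 ≤ L := by
    obtain ⟨n, -, h1, h2⟩ := hL 1 le_rfl
    omega
  set d : ℝ := (3 / 2 : ℝ) ^ ((1 : ℝ) / L) with hd
  have hLpos : (0 : ℝ) < L := by exact_mod_cast hL1
  have hd1 : 1 < d := Real.one_lt_rpow (by norm_num) (by positivity)
  have hdL : d ^ L = 3 / 2 := by
    rw [hd, ← Real.rpow_natCast, ← Real.rpow_mul (by norm_num)]
    rw [one_div, inv_mul_cancel₀ hLpos.ne', Real.rpow_one]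
  have hε : 0 < (1 - 1 / d) / 4 := by
    have : 1 / d < 1 := by rw [div_lt_one (by linarith)]; exact hd1
    linarith
  obtain ⟨K, hK⟩ := exists_pow_lt_of_lt_one hε (show (3 / 4 : ℝ) < 1 by norm_num)
  refine ⟨L * (K + 1), fun v n => ?_⟩
  have hd0 : 0 < d := by linarith
  have hw : ∀ n, wt S (L * (K + 1)) d n (n + 1) ≤ (1 - 1 / d) / 2 := by
    intro n
    have h1 : K ≤ cnt S (n + 1) (n + L * (K + 1)) := by
      have h2 := cnt_ge S hL (a := n + 1) (by omega) K
      have h3 : n + 1 + L * K ≤ n + L * (K + 1) := by rw [mul_add]; omega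
      rw [cnt_add S (b := n + 1 + L * K) (by omega) h3]
      omega
    unfold wt
    calc (1 / 2 : ℝ) ^ cnt S (n + 1) (n + L * (K + 1)) * d ^ (n + L * (K + 1) - (n + 1))
        ≤ (1 / 2 : ℝ) ^ K * d ^ (L * (K + 1)) := by
          gcongr ?_ * ?_
          · exact pow_le_pow_of_le_one (by norm_num) (by norm_num) h1
          · exact pow_le_pow_right₀ hd1.le (by omega)
      _ = (3 / 4 : ℝ) ^ K * (3 / 2) := by
          rw [pow_mul, hdL, pow_succ, ← mul_assoc, ← mul_pow]
          norm_num
      _ ≤ (1 - 1 / d) / 2 := by nlinarith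
  obtain ⟨f, hf⟩ := exists_pot_le S v (L * (K + 1)) hd0 hw n
  refine ⟨f, fun m hm => ?_⟩
  have := not_alive_of_pot S v (N := L * (K + 1)) (by nlinarith) hd0 (hf (m + L * (K + 1)) hm)
  unfold alive at this
  push Not at this
  obtain ⟨i, h1, h2, h3, h4⟩ := this
  exact ⟨i, h1, h2, h3, h4⟩

end comb

/-- The universal colouring. -/
lemma exists_universal (S : Set ℕ) {N : ℕ}
    (h : ∀ (v : ℕ → Bool) (n : ℕ), ∃ f : ℕ → Bool, ∀ m, m + N ≤ n →
      ∃ i ∈ S, m ≤ i ∧ i < m + N ∧ f i ≠ v (i - m)) :
    ∃ (f : ℕ → Bool), ∀ v : Fin N → Bool, ∀ b : ℕ, ∃ i, b ≤ i ∧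
      ∀ m, i ^ 2 ≤ m → m + N ≤ (i + 1) ^ 2 →
      ∃ j : Fin N, m + j ∈ S ∧ f (m + j) ≠ v j := by
  obtain ⟨g, hg⟩ := exists_surjective_nat (Fin N → Bool)
  choose F hF using h
  let ext : (Fin N → Bool) → ℕ → Bool := fun v j => if h : j < N then v ⟨j, h⟩ else false
  let f : ℕ → Bool := fun n => F (ext (g (Nat.unpair (Nat.sqrt n)).1)) ((Nat.sqrt n + 1) ^ 2) n
  refine ⟨f, fun v b => ?_⟩
  obtain ⟨a, ha⟩ := hg v
  refine ⟨Nat.pair a b, Nat.right_le_pair a b, fun m hm1 hm2 => ?_⟩
  set i := Nat.pair a b with hi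
  obtain ⟨k, hk1, hk2, hk3, hk4⟩ := hF (ext (g (Nat.unpair i).1)) ((i + 1) ^ 2) m hm2
  have hunp : (Nat.unpair i).1 = a := by rw [hi, Nat.unpair_pair]
  have hsqrt : Nat.sqrt k = i := (Nat.eq_sqrt'.2 ⟨by omega, by omega⟩).symm
  refine ⟨⟨k - m, by omega⟩, ?_, ?_⟩
  · simp only
    rwa [Nat.add_sub_cancel' hk2]
  · simp only
    rw [Nat.add_sub_cancel' hk2]
    simp only [f]
    rw [hsqrt]
    intro hcon
    apply hk4
    rw [hcon, hunp, ha]
    simp [ext, show k - m < N by omega]

/-- **Answer to Q1 (negative).** No syndetic set of positive integers is a weak interpolation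
set of order `2` for the class of uniquely ergodic systems. -/
theorem result : ¬ ∃ S : Set ℕ+, IsSyndetic S ∧
    IsWeakInterpolationSet {D : TDS.{u} | D.IsUniquelyErgodic} 2 S := by
  rintro ⟨S, ⟨L, hL⟩, hS⟩
  let S' : Set ℕ := {n | ∃ s ∈ S, (s : ℕ) = n}
  have hL' : ∀ m, 1 ≤ m → ∃ n ∈ S', m ≤ n ∧ n < m + L := by
    intro m hm
    obtain ⟨n, hn, h1, h2⟩ := hL ⟨m, hm⟩
    exact ⟨n, ⟨n, hn, rfl⟩, h1, h2⟩
  obtain ⟨N, hN⟩ := exists_avoid S' hL'
  obtain ⟨f, hf⟩ := exists_universal S' hN
  obtain ⟨D, hD, x, -, F, hF, hFx⟩ := hS (fun n => if f ((n : ℕ+) : ℕ) then 1 else 0)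
  have hFx' : ∀ n ∈ S', F (D.T^[n] x) = if f n then 1 else 0 := by
    rintro n ⟨s, hs, rfl⟩
    rw [hFx ⟨s, hs⟩]
    by_cases h : f (s : ℕ) = true <;> simp [h]
  -- the common point
  obtain ⟨z, hz⟩ : ∃ z : D.X, ∀ y : D.X, z ∈ closure (range fun n : ℕ => D.T^[n] y) := by
    let _ : MeasurableSpace D.X := borel D.X
    have : BorelSpace D.X := ⟨rfl⟩
    exact exists_common_point D.cont hD
  let v : Fin N → Bool := fun j => decide (1 / 2 < (F (D.T^[j] z)).re)
  choose I hI1 hI2 using hf v
  -- a limit point of the left ends of the blocks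
  obtain ⟨y, -, φ, hφ, hy⟩ := isCompact_univ.tendsto_subseq
    (x := fun b => D.T^[(I b) ^ 2] x) (fun _ => mem_univ _)
  let U : Set D.X := ⋂ j : Fin N, {w | ‖F (D.T^[j] w) - F (D.T^[j] z)‖ < 1 / 4}
  have hUo : IsOpen U := by
    apply isOpen_iInter_of_finite
    intro j
    apply isOpen_lt _ continuous_const
    exact ((hF.comp (D.cont.iterate _)).sub continuous_const).norm
  have hzU : z ∈ U := by
    simp only [U, mem_iInter, mem_ofPred_eq]
    intro j
    simp
  obtain ⟨w, hwU, m, rfl⟩ := mem_closure_iff.1 (hz y) U hUo hzU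
  have hV : IsOpen ((fun u => D.T^[m] u) ⁻¹' U) := hUo.preimage (D.cont.iterate _)
  have hev := hy.eventually (hV.mem_nhds hwU)
  obtain ⟨b, hb, hbm⟩ := (hev.and (eventually_ge_atTop (m + N))).exists
  have hφb : b ≤ φ b := hφ.id_le b
  have hIb := hI1 (φ b)
  have hlen : I (φ b) ^ 2 + m + N ≤ (I (φ b) + 1) ^ 2 := by nlinarith
  obtain ⟨j, hj1, hj2⟩ := hI2 (φ b) (I (φ b) ^ 2 + m) (by omega) hlen
  have hbU : D.T^[m] (D.T^[I (φ b) ^ 2] x) ∈ U := hb
  rw [← Function.iterate_add_apply] at hbU
  simp only [U, mem_iInter, mem_ofPred_eq] at hbU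
  have h1 := hbU j
  rw [← Function.iterate_add_apply] at h1
  have h2 : (j : ℕ) + (m + I (φ b) ^ 2) = I (φ b) ^ 2 + m + j := by ring
  rw [h2, hFx' _ hj1] at h1
  have h3 := (Complex.abs_re_le_norm _).trans_lt h1
  rw [abs_lt, Complex.sub_re] at h3
  apply hj2
  simp only [v]
  by_cases hfj : f (I (φ b) ^ 2 + m + j) = true
  · simp only [hfj, if_true, Complex.one_re] at h3 ⊢
    symm
    rw [decide_eq_true_iff]
    linarith [h3.2]
  · simp only [hfj] at h3 ⊢
    simp only [Bool.false_eq_true, if_false, Complex.zero_re] at h3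
    rw [Bool.not_eq_true] at hfj
    symm
    rw [decide_eq_false_iff_not]
    linarith [h3.1]

end Pool.Agent.Results.MP_0c3956_an.NoSyndetic
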